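import Pool.Agent.Helper35.PQF.St

/-!
# Module FO: translation length zero implies finite order.
-/

open Filter Topology Matrix Set MeasureTheory
open scoped ENNReal ComplexOrder

namespace Pool.Agent.Helper91.PM

open Pool.Agent.Helper35.PM

theorem trace_pos_re {P : Mat} (h : P.PosDef) : ∃ t : ℝ, 0 < t ∧ P.trace = (t : ℂ) := by
  have h1 : 0 < P.trace := h.trace_pos
  rw [Complex.lt_def] at h1
  refine ⟨P.trace.re, by simpa using h1.1, ?_⟩
  apply Complex.ext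
  · simp
  · simpa using h1.2.symm

theorem density_add {C : Set Mat} (hC : Convex ℝ C) {P Q : Mat} (hP : P.PosDef) (hQ : Q.PosDef)
    (h1 : density P ∈ C) (h2 : density Q ∈ C) : density (P + Q) ∈ C := by
  obtain ⟨s, hs, hs'⟩ := trace_pos_re hP
  obtain ⟨t, ht, ht'⟩ := trace_pos_re hQ
  have hst : 0 < s + t := by positivity
  have hmem : (s / (s + t)) • density P + (t / (s + t)) • density Q ∈ C :=
    hC h1 h2 (by positivity) (by positivity) (by field_simp)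
  have heq : density (P + Q) = (s / (s + t)) • density P + (t / (s + t)) • density Q := by
    unfold density
    rw [Matrix.trace_add, hs', ht']
    have hsC : (s : ℂ) ≠ 0 := by exact_mod_cast hs.ne'
    have htC : (t : ℂ) ≠ 0 := by exact_mod_cast ht.ne'
    have hstC : (s : ℂ) + (t : ℂ) ≠ 0 := by exact_mod_cast hst.ne'
    ext i j
    simp only [Matrix.smul_apply, Matrix.add_apply, smul_eq_mul, Complex.real_smul]
    push_cast
    field_simp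
  rw [heq]
  exact hmem

theorem finOrder_of_bdd {Γ : Type} [Group Γ] (ρ : Γ →* SL) (hd : IsDiscrete ρ) (γ : Γ) (M : ℝ)
    (h : ∀ n : ℕ, hs ((ρ γ ^ n : SL) : Mat) ≤ M) : ∃ n : ℕ, 1 ≤ n ∧ γ ^ n = 1 := by
  have hf : ((Submonoid.powers γ : Submonoid Γ) : Set Γ).Finite := by
    apply (hd M).subset
    rintro _ ⟨n, rfl⟩
    change hs (ρ (γ ^ n) : Mat) ≤ M
    rw [map_pow]
    exact h n
  rw [finite_powers, isOfFinOrder_iff_pow_eq_one] at hf
  obtain ⟨n, hn, hn'⟩ := hf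
  exact ⟨n, hn, hn'⟩

theorem disp_continuousAt (A : Mat) {Q : Mat} (hQ : Q.PosDef) :
    ContinuousAt (fun X : Mat => disp A X) Q := by
  unfold disp
  have hdet : Q.det ≠ 0 := hQ.det_pos.ne'
  have hinv : ContinuousAt (fun X : Mat => X⁻¹) Q := by
    have : (fun X : Mat => X⁻¹) = fun X : Mat => (X.det)⁻¹ • X.adjugate := by
      funext X
      rw [Matrix.inv_def, Ring.inverse_eq_inv']
    rw [this]
    have c1 : ContinuousAt (fun X : Mat => (X.det)⁻¹) Q := by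
      apply ContinuousAt.inv₀ _ hdet
      exact (Continuous.matrix_det continuous_id).continuousAt
    have c2 : ContinuousAt (fun X : Mat => X.adjugate) Q :=
      (Continuous.matrix_adjugate continuous_id).continuousAt
    exact c1.smul c2
  apply Complex.continuous_re.continuousAt.comp
  have h1 : ContinuousAt (fun X : Mat => X⁻¹ * A * X * Aᴴ) Q := by
    apply ContinuousAt.mul
    · apply ContinuousAt.mul
      · exact hinv.mul continuousAt_const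
      · exact continuousAt_id
    · exact continuousAt_const
  exact (Continuous.matrix_trace continuous_id).continuousAt.comp h1

theorem fix_pow (A : SL) (Q : Mat) (h : (A : Mat) * Q * (A : Mat)ᴴ = Q) (n : ℕ) :
    ((A ^ n : SL) : Mat) * Q * ((A ^ n : SL) : Mat)ᴴ = Q := by
  induction n with
  | zero => simp
  | succ n ih =>
    rw [pow_succ, Matrix.SpecialLinearGroup.coe_mul, Matrix.conjTranspose_mul]
    calc ((A ^ n : SL) : Mat) * (A : Mat) * Q * ((A : Mat)ᴴ * ((A ^ n : SL) : Mat)ᴴ)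
        = ((A ^ n : SL) : Mat) * ((A : Mat) * Q * (A : Mat)ᴴ) * ((A ^ n : SL) : Mat)ᴴ := by
          noncomm_ring
      _ = Q := by rw [h, ih]

theorem disp_of_fix (A : Mat) {Q : Mat} (hQ : Q.PosDef) (h : A * Q * Aᴴ = Q) : disp A Q = 2 := by
  unfold disp
  have h1 : Q⁻¹ * A * Q * Aᴴ = Q⁻¹ * (A * Q * Aᴴ) := by noncomm_ring
  rw [h1, h, Matrix.nonsing_inv_mul _ (Ne.isUnit hQ.det_pos.ne')]
  simp

theorem fo (_hs1 : St_HS1) (dp1 : St_DP1) (dp2 : St_DP2) (dp4 : St_DP4) (dp5 : St_DP5) :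
    St_FO := by
  intro Γ _ ρ hd hcc γ hγ
  obtain ⟨dpa, dpb, dpc, dpd⟩ := dp1
  rcases dp4 (ρ γ) hγ with ⟨M, hM⟩ | hpar
  · exact finOrder_of_bdd ρ hd γ M hM
  obtain ⟨C, K, ⟨P, hP⟩, hCconv, hCpos, hCinv, hKc, hKpos, hmove⟩ := hcc
  have hPpos : P.PosDef := (hCpos P hP).1
  have hex : ∀ k : ℕ, ∃ n : ℕ,
      disp (ρ γ : Mat) (((ρ γ ^ n : SL) : Mat) * P * ((ρ γ ^ n : SL) : Mat)ᴴ +
        (((ρ γ ^ n)⁻¹ : SL) : Mat) * P * (((ρ γ ^ n)⁻¹ : SL) : Mat)ᴴ) ≤ 2 + 1 / ((k : ℝ) + 1) :=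
    fun k => hpar P hPpos _ (by positivity)
  have hex2 : ∀ k : ℕ, ∃ g : Γ, ∃ Q : Mat, Q ∈ K ∧
      disp (ρ (g * γ * g⁻¹) : Mat) Q ≤ 2 + 1 / ((k : ℝ) + 1) := by
    intro k
    obtain ⟨n, hn⟩ := hex k
    obtain ⟨Q1, hQ1⟩ : ∃ Q1, Q1 = ((ρ γ ^ n : SL) : Mat) * P * ((ρ γ ^ n : SL) : Mat)ᴴ :=
      ⟨_, rfl⟩
    obtain ⟨Q2, hQ2⟩ : ∃ Q2, Q2 =
      (((ρ γ ^ n)⁻¹ : SL) : Mat) * P * (((ρ γ ^ n)⁻¹ : SL) : Mat)ᴴ := ⟨_, rfl⟩
    rw [← hQ1, ← hQ2] at hn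
    have p1 : Q1.PosDef := by rw [hQ1]; exact dpc _ _ hPpos
    have p2 : Q2.PosDef := by rw [hQ2]; exact dpc _ _ hPpos
    have m1 : density Q1 ∈ C := by
      rw [hQ1, ← map_pow]; exact hCinv _ _ hP
    have m2 : density Q2 ∈ C := by
      rw [hQ2, ← map_pow, ← map_inv]; exact hCinv _ _ hP
    have m3 : density (Q1 + Q2) ∈ C := density_add hCconv p1 p2 m1 m2
    have p3 : (Q1 + Q2).PosDef := p1.add p2
    obtain ⟨g, hg⟩ := hmove _ m3
    refine ⟨g, _, hg, ?_⟩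
    have p4 : (density (Q1 + Q2)).PosDef := (dpd _ p3).1
    rw [dpb _ _ (dpc _ _ p4), map_mul, map_mul, map_inv, dpa _ _ _ p4, dpb _ _ p3]
    exact hn
  choose g Q hQK hQd using hex2
  obtain ⟨c, hc, hcK⟩ := dp2 K hKc hKpos
  have hfin : {γ : Γ | hs (ρ γ) ≤ 3 / c}.Finite := hd (3 / c)
  have hmem : ∀ k, g k * γ * (g k)⁻¹ ∈ {γ : Γ | hs (ρ γ) ≤ 3 / c} := by
    intro k
    change hs (ρ (g k * γ * (g k)⁻¹) : Mat) ≤ 3 / c
    have h1 := hcK (Q k) (hQK k) (ρ (g k * γ * (g k)⁻¹) : Mat)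
    have h2 := hQd k
    have h3 : (1 : ℝ) / ((k : ℝ) + 1) ≤ 1 := by
      rw [div_le_one (by positivity)]
      have : (0 : ℝ) ≤ (k : ℝ) := by positivity
      linarith
    rw [le_div_iff₀ hc]
    linarith
  -- the ultrafilter
  obtain ⟨U, hU⟩ : ∃ U : Ultrafilter ℕ, (U : Filter ℕ) ≤ atTop :=
    ⟨Ultrafilter.of atTop, Ultrafilter.of_le atTop⟩
  have hev : ∀ᶠ k in (U : Filter ℕ), ∃ γ' ∈ {γ : Γ | hs (ρ γ) ≤ 3 / c},
      g k * γ * (g k)⁻¹ = γ' := Eventually.of_forall fun k => ⟨_, hmem k, rfl⟩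
  rw [Ultrafilter.eventually_exists_mem_iff hfin] at hev
  obtain ⟨γ', hγ'1, hγ'2⟩ := hev
  have hUK : ((U.map Q : Ultrafilter Mat) : Filter Mat) ≤ 𝓟 K := by
    rw [le_principal_iff]
    exact Filter.mem_map.2 (Filter.univ_mem' hQK)
  obtain ⟨Q', hQ'K, hQ'⟩ := hKc.ultrafilter_le_nhds _ hUK
  have hQ'pos : Q'.PosDef := (hKpos Q' hQ'K).1
  have htend : Tendsto (fun k => disp (ρ γ' : Mat) (Q k)) (U : Filter ℕ)
      (𝓝 (disp (ρ γ' : Mat) Q')) := (disp_continuousAt (ρ γ' : Mat) hQ'pos).tendsto.comp hQ'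
  have htend2 : Tendsto (fun k : ℕ => 2 + 1 / ((k : ℝ) + 1)) (U : Filter ℕ) (𝓝 2) := by
    have h0 : Tendsto (fun k : ℕ => 2 + 1 / ((k : ℝ) + 1)) atTop (𝓝 (2 + 0)) :=
      tendsto_const_nhds.add tendsto_one_div_add_atTop_nhds_zero_nat
    rw [add_zero] at h0
    exact h0.mono_left hU
  have hle : disp (ρ γ' : Mat) Q' ≤ 2 := by
    apply le_of_tendsto_of_tendsto htend htend2
    filter_upwards [hγ'2] with k hk
    rw [← hk]
    exact hQd k
  have hfix : ((ρ γ' : SL) : Mat) * Q' * ((ρ γ' : SL) : Mat)ᴴ = Q' := dp5 _ _ hQ'pos hle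
  have hbd : ∀ n : ℕ, hs ((ρ γ' ^ n : SL) : Mat) ≤ 2 / c := by
    intro n
    have h1 := hcK Q' hQ'K ((ρ γ' ^ n : SL) : Mat)
    rw [disp_of_fix _ hQ'pos (fix_pow _ _ hfix n)] at h1
    rw [le_div_iff₀ hc]
    linarith
  obtain ⟨n, hn, hn'⟩ := finOrder_of_bdd ρ hd γ' _ hbd
  obtain ⟨k, hk⟩ := hγ'2.exists
  refine ⟨n, hn, ?_⟩
  rw [← hk, conj_pow] at hn'
  have := congrArg (fun x => (g k)⁻¹ * x * g k) hn'
  simpa [mul_assoc] using this

end Pool.Agent.Helper91.PM
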