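import Pool.Agent.Helper35.PQF.St

/-!
# Module UL: limits of positive harmonic functions along an ultrafilter.

The Cayley transforms `(H - 1)/(H + 1)` of the normalised functions are bounded by one, their
pointwise limit along the ultrafilter is holomorphic and never equal to one.
-/

open Filter Topology Matrix Set MeasureTheory
open scoped ENNReal ComplexOrder

namespace Pool.Agent.Helper91.PM

open Pool.Agent.Helper35.PM

/-- Limits of uniformly bounded holomorphic functions along an ultrafilter. -/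
theorem bounded_limit (U : Ultrafilter ℝ) (φ : ℝ → ℂ → ℂ)
    (hd : ∀ T, DifferentiableOn ℂ (φ T) (Metric.ball 0 1))
    (hb : ∀ T, ∀ z ∈ Metric.ball (0 : ℂ) 1, ‖φ T z‖ ≤ 1) :
    ∃ φ₀ : ℂ → ℂ, DifferentiableOn ℂ φ₀ (Metric.ball 0 1) ∧
      (∀ z ∈ Metric.ball (0 : ℂ) 1, Tendsto (fun T => φ T z) (U : Filter ℝ) (𝓝 (φ₀ z))) ∧
      ∀ z ∈ Metric.ball (0 : ℂ) 1, ‖φ₀ z‖ ≤ 1 := by
  have hex : ∀ z ∈ Metric.ball (0 : ℂ) 1, ∃ w ∈ Metric.closedBall (0 : ℂ) 1,
      Tendsto (fun T => φ T z) (U : Filter ℝ) (𝓝 w) := by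
    intro z hz
    have hc : IsCompact (Metric.closedBall (0 : ℂ) 1) := isCompact_closedBall _ _
    have hle : ((U.map (fun T => φ T z) : Ultrafilter ℂ) : Filter ℂ) ≤
        𝓟 (Metric.closedBall (0 : ℂ) 1) := by
      rw [le_principal_iff]
      apply Filter.mem_map.2
      apply Filter.univ_mem'
      intro T
      simpa using hb T z hz
    obtain ⟨w, hw, hw'⟩ := hc.ultrafilter_le_nhds _ hle
    exact ⟨w, hw, hw'⟩
  choose! φ₀ h0 ht using hex
  have hlip : ∀ T, ∀ z ∈ Metric.ball (0 : ℂ) 1, ∀ y ∈ Metric.ball z (1 - ‖z‖),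
      dist (φ T y) (φ T z) ≤ 2 / (1 - ‖z‖) * dist y z := by
    intro T z hz y hy
    have hz1 : ‖z‖ < 1 := by simpa using hz
    have hsub : Metric.ball z (1 - ‖z‖) ⊆ Metric.ball (0 : ℂ) 1 := by
      apply Metric.ball_subset_ball'
      rw [dist_zero_right]
      linarith
    apply Complex.dist_le_div_mul_dist_of_mapsTo_ball ((hd T).mono hsub) _ hy
    intro x hx
    rw [Metric.mem_closedBall, dist_eq_norm]
    have h1 := hb T x (hsub hx)
    have h2 := hb T z hz
    linarith [norm_sub_le (φ T x) (φ T z)]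
  have hlip0 : ∀ z ∈ Metric.ball (0 : ℂ) 1, ∀ y ∈ Metric.ball z (1 - ‖z‖),
      dist (φ₀ y) (φ₀ z) ≤ 2 / (1 - ‖z‖) * dist y z := by
    intro z hz y hy
    have hz1 : ‖z‖ < 1 := by simpa using hz
    have hsub : Metric.ball z (1 - ‖z‖) ⊆ Metric.ball (0 : ℂ) 1 := by
      apply Metric.ball_subset_ball'
      rw [dist_zero_right]
      linarith
    exact le_of_tendsto ((ht y (hsub hy)).dist (ht z hz)) (Eventually.of_forall fun T =>
      hlip T z hz y hy)
  refine ⟨φ₀, ?_, ht, fun z hz => by simpa using h0 z hz⟩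
  have hloc : TendstoLocallyUniformlyOn φ φ₀ (U : Filter ℝ) (Metric.ball (0 : ℂ) 1) := by
    rw [Metric.tendstoLocallyUniformlyOn_iff]
    intro ε hε z hz
    have hz1 : ‖z‖ < 1 := by simpa using hz
    have hR : 0 < 1 - ‖z‖ := by linarith
    obtain ⟨δ, hδ, hδ1, hδ2⟩ : ∃ δ : ℝ, 0 < δ ∧ δ ≤ 1 - ‖z‖ ∧
        2 / (1 - ‖z‖) * δ ≤ ε / 4 := by
      refine ⟨min (1 - ‖z‖) (ε / 4 * ((1 - ‖z‖) / 2)), by positivity, min_le_left _ _, ?_⟩
      calc 2 / (1 - ‖z‖) * min (1 - ‖z‖) (ε / 4 * ((1 - ‖z‖) / 2))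
          ≤ 2 / (1 - ‖z‖) * (ε / 4 * ((1 - ‖z‖) / 2)) := by
            apply mul_le_mul_of_nonneg_left (min_le_right _ _) (by positivity)
        _ = ε / 4 := by field_simp
    refine ⟨Metric.ball z δ, mem_nhdsWithin_of_mem_nhds (Metric.ball_mem_nhds z hδ), ?_⟩
    have hev : ∀ᶠ T in (U : Filter ℝ), dist (φ T z) (φ₀ z) < ε / 4 :=
      (ht z hz) (Metric.ball_mem_nhds _ (by positivity))
    filter_upwards [hev] with T hT
    intro y hy
    have hy' : y ∈ Metric.ball z (1 - ‖z‖) := Metric.ball_subset_ball hδ1 hy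
    have hyd : dist y z ≤ δ := le_of_lt hy
    have hk : 2 / (1 - ‖z‖) * dist y z ≤ ε / 4 :=
      le_trans (mul_le_mul_of_nonneg_left hyd (by positivity)) hδ2
    have h1 := hlip T z hz y hy'
    have h2 := hlip0 z hz y hy'
    calc dist (φ₀ y) (φ T y) ≤ dist (φ₀ y) (φ₀ z) + dist (φ₀ z) (φ T y) := dist_triangle _ _ _
      _ ≤ dist (φ₀ y) (φ₀ z) + (dist (φ₀ z) (φ T z) + dist (φ T z) (φ T y)) := by
          gcongr
          exact dist_triangle _ _ _
      _ < ε := by
          rw [dist_comm (φ₀ z) (φ T z), dist_comm (φ T z) (φ T y)]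
          linarith
  exact hloc.differentiableOn (Eventually.of_forall hd) Metric.isOpen_ball

theorem ul (_hk : St_HK) : St_UL := by
  intro U G p M hp hG hpos hM
  obtain ⟨H, hH⟩ : ∃ H : ℝ → ℂ → ℂ, ∀ T z, H T z = G T z - (((G T p).im : ℝ) : ℂ) * Complex.I :=
    ⟨fun T z => G T z - (((G T p).im : ℝ) : ℂ) * Complex.I, fun T z => rfl⟩
  have hHre : ∀ T z, (H T z).re = (G T z).re := by
    intro T z
    rw [hH]
    simp
  have hHp : ∀ T, H T p = (((G T p).re : ℝ) : ℂ) := by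
    intro T
    rw [hH]
    apply Complex.ext <;> simp
  have hHd : ∀ T, DifferentiableOn ℂ (H T) (Metric.ball 0 1) := by
    intro T
    have : H T = fun z => G T z - (((G T p).im : ℝ) : ℂ) * Complex.I := funext (hH T)
    rw [this]
    exact (hG T).sub_const _
  have hne : ∀ T, ∀ z ∈ Metric.ball (0 : ℂ) 1, H T z + 1 ≠ 0 := by
    intro T z hz h0
    have h1 := congrArg Complex.re h0
    rw [Complex.add_re, hHre] at h1
    simp only [Complex.one_re, Complex.zero_re] at h1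
    linarith [hpos T z hz]
  obtain ⟨φ, hφ⟩ : ∃ φ : ℝ → ℂ → ℂ, ∀ T z, φ T z = (H T z - 1) / (H T z + 1) :=
    ⟨fun T z => (H T z - 1) / (H T z + 1), fun T z => rfl⟩
  have hφd : ∀ T, DifferentiableOn ℂ (φ T) (Metric.ball 0 1) := by
    intro T
    have : φ T = fun z => (H T z - 1) / (H T z + 1) := funext (hφ T)
    rw [this]
    exact ((hHd T).sub_const 1).div ((hHd T).add_const 1) (hne T)
  have hφb : ∀ T, ∀ z ∈ Metric.ball (0 : ℂ) 1, ‖φ T z‖ ≤ 1 := by
    intro T z hz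
    rw [hφ, norm_div, div_le_one (norm_pos_iff.2 (hne T z hz))]
    have h0 : 0 ≤ (H T z).re := by rw [hHre]; exact hpos T z hz
    rw [← Real.sqrt_sq (norm_nonneg (H T z - 1)), ← Real.sqrt_sq (norm_nonneg (H T z + 1))]
    apply Real.sqrt_le_sqrt
    rw [← Complex.normSq_eq_norm_sq, ← Complex.normSq_eq_norm_sq, Complex.normSq_apply,
      Complex.normSq_apply]
    simp only [Complex.sub_re, Complex.sub_im, Complex.add_re, Complex.add_im, Complex.one_re,
      Complex.one_im]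
    nlinarith
  obtain ⟨φ₀, hd0, ht0, hb0⟩ := bounded_limit U φ hφd hφb
  -- at `p` the limit is different from one
  have hkey : ∀ T, ∀ z ∈ Metric.ball (0 : ℂ) 1, (1 - φ T z) * (H T z + 1) = 2 := by
    intro T z hz
    rw [hφ]
    have := hne T z hz
    field_simp
    ring
  have hp1 : φ₀ p ≠ 1 := by
    intro h1
    have hM0 : 0 ≤ M := by
      obtain ⟨T, hT⟩ := hM.exists
      linarith [hpos T p hp]
    have hlim : Tendsto (fun T => ‖1 - φ T p‖) (U : Filter ℝ) (𝓝 ‖1 - φ₀ p‖) :=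
      (tendsto_const_nhds.sub (ht0 p hp)).norm
    have hge : 2 / (M + 1) ≤ ‖1 - φ₀ p‖ := by
      apply ge_of_tendsto hlim
      filter_upwards [hM] with T hT
      have h2 := congrArg norm (hkey T p hp)
      rw [norm_mul, hHp] at h2
      have h3 : ‖(((G T p).re : ℝ) : ℂ) + 1‖ = (G T p).re + 1 := by
        have : (((G T p).re : ℝ) : ℂ) + 1 = (((G T p).re + 1 : ℝ) : ℂ) := by push_cast; rfl
        rw [this, Complex.norm_real, Real.norm_eq_abs, abs_of_nonneg]
        linarith [hpos T p hp]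
      rw [h3] at h2
      have h4 : ‖(2 : ℂ)‖ = 2 := by simp
      rw [h4] at h2
      rw [div_le_iff₀ (by linarith)]
      have h5 : ‖1 - φ T p‖ * ((G T p).re + 1) ≤ ‖1 - φ T p‖ * (M + 1) :=
        mul_le_mul_of_nonneg_left (by linarith) (norm_nonneg _)
      linarith
    rw [h1, sub_self, norm_zero] at hge
    have : 0 < 2 / (M + 1) := by positivity
    linarith
  have hz1 : ∀ z ∈ Metric.ball (0 : ℂ) 1, φ₀ z ≠ 1 := by
    intro z hz h1
    have hmax : IsMaxOn (norm ∘ φ₀) (Metric.ball (0 : ℂ) 1) z := by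
      intro w hw
      change ‖φ₀ w‖ ≤ ‖φ₀ z‖
      rw [h1, norm_one]
      exact hb0 w hw
    have heq := Complex.eqOn_of_isPreconnected_of_isMaxOn_norm
      (convex_ball (0 : ℂ) 1).isPreconnected Metric.isOpen_ball hd0 hz hmax hp
    rw [h1] at heq
    exact hp1 heq
  have hz1' : ∀ z ∈ Metric.ball (0 : ℂ) 1, 1 - φ₀ z ≠ 0 := fun z hz h =>
    hz1 z hz (sub_eq_zero.1 h).symm
  refine ⟨fun z => (1 + φ₀ z) / (1 - φ₀ z), ?_, ?_⟩
  · exact (hd0.const_add 1).div (hd0.const_sub 1) hz1'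
  · intro z hz
    have hlim : Tendsto (fun T => (1 + φ T z) / (1 - φ T z)) (U : Filter ℝ)
        (𝓝 ((1 + φ₀ z) / (1 - φ₀ z))) :=
      (tendsto_const_nhds.add (ht0 z hz)).div (tendsto_const_nhds.sub (ht0 z hz)) (hz1' z hz)
    have hre := (Complex.continuous_re.tendsto _).comp hlim
    refine hre.congr fun T => ?_
    change ((1 + φ T z) / (1 - φ T z)).re = _
    rw [← hHre]
    congr 1
    have h1 := hkey T z hz
    have h2 : 1 - φ T z ≠ 0 := by
      intro h
      rw [h, zero_mul] at h1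
      norm_num at h1
    rw [div_eq_iff h2]
    linear_combination -h1

end Pool.Agent.Helper91.PM
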